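import Pool.Agent.W182.PW.Lin

set_option autoImplicit false

/-!
# Primes `p` with `2 p - 1` almost prime in all windows around a positive proportion of the integers

There are `r` and `c₁, c₂, K > 0` such that a positive proportion of all integers `n` is regular:
every interval `(a, b]` with `a ≤ n ≤ b` and `K log² n ≤ b - a ≤ n` contains between
`c₁ (b - a) / log² n` and `c₂ (b - a) / log² n` primes `p` for which `2 p - 1` has at most `r` prime
factors, all larger than `n ^ (1 / r)`.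
-/

namespace Pool.Agent.Results.MP_0fefc4_nt.RegularWindows

open Finset Filter

/-- `p` is prime and `2 p - 1` has at most `r` prime factors (with multiplicity), all of them
larger than `z`. -/
def AlmostPair (r : ℕ) (z : ℝ) (p : ℕ) : Prop :=
  p.Prime ∧ (2 * p - 1).primeFactorsList.length ≤ r ∧
    ∀ q : ℕ, q.Prime → q ∣ 2 * p - 1 → z < (q : ℝ)

open Classical in
/-- `n` is regular. -/
def Regular (r : ℕ) (c₁ c₂ K : ℝ) (n : ℕ) : Prop :=
  ∀ a b : ℕ, a ≤ n → n ≤ b → K * Real.log n ^ 2 ≤ (b : ℝ) - a → (b : ℝ) - a ≤ n →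
    c₁ * ((b : ℝ) - a) / Real.log n ^ 2 ≤
      (((Finset.Ioc a b).filter (fun p => AlmostPair r ((n : ℝ) ^ (1 / (r : ℝ))) p)).card : ℝ) ∧
    (((Finset.Ioc a b).filter (fun p => AlmostPair r ((n : ℝ) ^ (1 / (r : ℝ))) p)).card : ℝ) ≤
      c₂ * ((b : ℝ) - a) / Real.log n ^ 2

open Pool.Agent.W182.PW

lemma prop_eq : PrimeAlmost (fun _ : Fin 1 => lin 2 (-1)) = AlmostPair := by
  funext r z p
  apply propext
  unfold PrimeAlmost AlmostPair
  rcases Nat.eq_zero_or_pos p with h0 | h0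
  · subst h0
    exact ⟨fun h => absurd h.1 Nat.not_prime_zero, fun h => absurd h.1 Nat.not_prime_zero⟩
  have h1 : ((lin 2 (-1)).eval (p : ℤ)) = ((2 * p - 1 : ℕ) : ℤ) := by
    rw [lin_eval]
    omega
  simp only [h1, Int.natAbs_natCast]
  constructor
  · rintro ⟨h2, h3⟩
    exact ⟨h2, (h3 0).1, fun q hq hd => (h3 0).2 q hq (Int.natCast_dvd_natCast.2 hd)⟩
  · rintro ⟨h2, h3, h4⟩
    exact ⟨h2, fun _ => ⟨h3, fun q hq hd => h4 q hq (Int.natCast_dvd_natCast.1 hd)⟩⟩

lemma reg_eq : RegularP (fun _ : Fin 1 => lin 2 (-1)) (1 + 1) = Regular := by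
  funext r c₁ c₂ K n
  unfold RegularP Regular
  rw [prop_eq]

open Classical in
/-- **Primes `p` with `2 p - 1` almost prime: regular windows.** For some `r` and positive
`c₁, c₂, K, κ` and all large `x` at least `κ x` of the integers `n` in `[1, x]` are regular. -/
theorem result : ∃ (r : ℕ) (c₁ c₂ K κ : ℝ), 0 < c₁ ∧ 0 < c₂ ∧ 0 < K ∧ 0 < κ ∧
    ∀ᶠ x : ℕ in atTop,
      κ * x ≤ (((Finset.Icc 1 x).filter (fun n => Regular r c₁ c₂ K n)).card : ℝ) := by
  have h := main_lin (k := 1) (fun _ => 2) (fun _ => -1) (fun _ => by norm_num)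
    (fun _ => isCoprime_one_right.neg_right) (fun _ _ _ _ => Subsingleton.elim _ _)
    (fun _ h => by omega)
    (by
      intro p hp
      refine ⟨1, fun h => hp.one_lt.ne' (Nat.dvd_one.1 h), fun _ h => ?_⟩
      have h1 : (p : ℤ) ∣ ((1 : ℕ) : ℤ) := by
        have h2 : ((2 : ℕ) : ℤ) * ((1 : ℕ) : ℤ) + -1 = ((1 : ℕ) : ℤ) := by norm_num
        rw [← h2]
        exact h
      rw [Int.natCast_dvd_natCast] at h1
      exact hp.one_lt.ne' (Nat.dvd_one.1 h1))
  rw [reg_eq] at h
  exact h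

end Pool.Agent.Results.MP_0fefc4_nt.RegularWindows
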